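import Pool.Agent.TH377.Dyn.Rat

/-!
# Integral perturbations of rational maps `F / (b G)`
-/

set_option autoImplicit false
set_option maxHeartbeats 400000

namespace Pool.Agent.N680.RM

open Polynomial NumberField IsDedekindDomain Pool.Agent.TH377.Dyn Pool.Agent.TH377.Sup

/-- the orbit of `P` under a sequence of maps -/
def orbit {X : Type} (f : ℕ → X → X) (P : X) : ℕ → X
  | 0 => P
  | k + 1 => f k (orbit f P k)

section val

variable {L : Type} [Field L] {Γ : Type} [LinearOrderedCommGroupWithZero Γ] (V : Valuation L Γ)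

theorem val_le_pow (H : L[X]) (hH : ∀ i, V (H.coeff i) ≤ 1) (y : L) (hy : 1 < V y) :
    V (H.eval y) ≤ V y ^ H.natDegree := by
  rw [eval_eq_sum_range]
  refine Valuation.map_sum_le V fun i hi => ?_
  rw [map_mul, map_pow]
  have h1 : V y ^ i ≤ V y ^ H.natDegree :=
    pow_le_pow_right₀ hy.le (by have := Finset.mem_range.1 hi; omega)
  calc V (H.coeff i) * V y ^ i ≤ 1 * V y ^ i := mul_le_mul_left (hH i) _
    _ = V y ^ i := one_mul _
    _ ≤ _ := h1

variable {F : L[X]} (hF : ∀ i, V (F.coeff i) ≤ 1) (hl : V F.leadingCoeff = 1)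
  {G : L[X]} (hG : ∀ i, V (G.coeff i) ≤ 1) (hlG : V G.leadingCoeff = 1)
  (hGF : G.natDegree < F.natDegree) {H : L[X]} (hH : ∀ i, V (H.coeff i) ≤ 1)
  (hHF : G.natDegree + H.natDegree ≤ F.natDegree) {b : L} (hb : V b < 1) (hb0 : b ≠ 0)

include hF hl hG hlG hGF hH hHF hb hb0

/-- large points become larger -/
theorem step (y : L) (hy : 1 < V y) : G.eval y ≠ 0 ∧
    V y < V ((F.eval y + b * G.eval y * H.eval y) / (b * G.eval y)) := by
  have hVb : V b ≠ 0 := (Valuation.ne_zero_iff V).2 hb0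
  have hb1 : 1 < (V b)⁻¹ := (one_lt_inv₀ (zero_lt_iff.2 hVb)).2 hb
  have hy0 : 0 < V y := zero_lt_one.trans hy
  have e1 := val_eval V F hF hl y hy
  have e2 := val_eval V G hG hlG y hy
  have e3 : G.eval y ≠ 0 := by
    intro h
    rw [h, map_zero] at e2
    exact (pow_pos hy0 _).ne e2
  have e5 : V (F.eval y / (b * G.eval y)) = (V b)⁻¹ * (V y ^ F.natDegree *
      (V y ^ G.natDegree)⁻¹) := by
    rw [map_div₀, map_mul, e1, e2, div_eq_mul_inv, mul_inv, ← mul_assoc, mul_comm _ (V b)⁻¹,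
      mul_assoc]
  have e6 : V y ^ H.natDegree ≤ V y ^ F.natDegree * (V y ^ G.natDegree)⁻¹ := by
    rw [← div_eq_mul_inv, le_div_iff₀ (pow_pos hy0 _), ← pow_add, add_comm]
    exact pow_le_pow_right₀ hy.le hHF
  have e4 : V y ≤ V y ^ F.natDegree * (V y ^ G.natDegree)⁻¹ := by
    rw [← div_eq_mul_inv, le_div_iff₀ (pow_pos hy0 _), ← pow_succ']
    exact pow_le_pow_right₀ hy.le hGF
  have hpos : 0 < V y ^ F.natDegree * (V y ^ G.natDegree)⁻¹ := hy0.trans_le e4
  have e7 : V y ^ F.natDegree * (V y ^ G.natDegree)⁻¹ < V (F.eval y / (b * G.eval y)) := by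
    rw [e5]
    calc _ = 1 * (V y ^ F.natDegree * (V y ^ G.natDegree)⁻¹) := (one_mul _).symm
      _ < _ := mul_lt_mul_of_pos_right hb1 hpos
  refine ⟨e3, ?_⟩
  have e8 : (F.eval y + b * G.eval y * H.eval y) / (b * G.eval y) =
      F.eval y / (b * G.eval y) + H.eval y := by
    rw [add_div, mul_div_cancel_left₀ _ (mul_ne_zero hb0 e3)]
  have e9 : V (H.eval y) < V (F.eval y / (b * G.eval y)) :=
    ((val_le_pow V H hH y hy).trans e6).trans_lt e7
  rw [e8, Valuation.map_add_eq_of_lt_left V e9]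
  exact e4.trans_lt e7

/-- the first step -/
theorem first (x : L) (hx : 1 < V x ∨ 1 ≤ V (F.eval x)) (hGx : G.eval x ≠ 0) :
    1 < V ((F.eval x + b * G.eval x * H.eval x) / (b * G.eval x)) ∧
      V x < V ((F.eval x + b * G.eval x * H.eval x) / (b * G.eval x)) := by
  have hVb : V b ≠ 0 := (Valuation.ne_zero_iff V).2 hb0
  by_cases h1 : 1 < V x
  · have h2 := (step V hF hl hG hlG hGF hH hHF hb hb0 x h1).2
    exact ⟨h1.trans h2, h2⟩
  · rw [not_lt] at h1
    have h2 : 1 ≤ V (F.eval x) := by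
      rcases hx with hx | hx
      · exact absurd hx (not_lt.2 h1)
      · exact hx
    have h3 : 1 < V (F.eval x / (b * G.eval x)) := by
      have h4 : V (G.eval x) ≤ 1 := val_eval_le V G hG x h1
      have h5 : V (G.eval x) ≠ 0 := (Valuation.ne_zero_iff V).2 hGx
      rw [map_div₀, map_mul, lt_div_iff₀ (zero_lt_iff.2 (mul_ne_zero hVb h5)), one_mul]
      refine lt_of_lt_of_le ?_ h2
      calc V b * V (G.eval x) ≤ V b * 1 := mul_le_mul_right h4 _
        _ = V b := mul_one _
        _ < 1 := hb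
    have e8 : (F.eval x + b * G.eval x * H.eval x) / (b * G.eval x) =
        F.eval x / (b * G.eval x) + H.eval x := by
      rw [add_div, mul_div_cancel_left₀ _ (mul_ne_zero hb0 hGx)]
    have e9 : V (H.eval x) < V (F.eval x / (b * G.eval x)) :=
      (val_eval_le V H hH x h1).trans_lt h3
    rw [e8, Valuation.map_add_eq_of_lt_left V e9]
    exact ⟨h3, h1.trans_lt h3⟩

end val

/-- orbits with growing values -/
theorem orbit_injective {L Γ : Type} [Field L] [LinearOrderedCommGroupWithZero Γ]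
    (V : Valuation L Γ) (f : ℕ → Option L → Option L) (x : L)
    (h0 : ∃ y, f 0 (some x) = some y ∧ 1 < V y ∧ V x < V y)
    (hs : ∀ k y, 1 < V y → ∃ z, f k (some y) = some z ∧ V y < V z) :
    Function.Injective (orbit f (some x)) := by
  have horb : ∀ n, ∃ y : L, orbit f (some x) (n + 1) = some y ∧ 1 < V y := by
    intro n
    induction n with
    | zero =>
      obtain ⟨y, h1, h2, -⟩ := h0
      exact ⟨y, h1, h2⟩
    | succ n ih =>
      obtain ⟨y, hy, hy1⟩ := ih
      obtain ⟨z, hz, hz1⟩ := hs (n + 1) y hy1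
      refine ⟨z, ?_, hy1.trans hz1⟩
      change f (n + 1) (orbit f (some x) (n + 1)) = some z
      rw [hy, hz]
  let g : Option L → Γ := fun P => P.elim 0 V
  have hmono : StrictMono fun n => g (orbit f (some x) n) := by
    refine strictMono_nat_of_lt_succ fun n => ?_
    cases n with
    | zero =>
      obtain ⟨y, h1, -, h3⟩ := h0
      change V x < g (f 0 (some x))
      rw [h1]
      exact h3
    | succ n =>
      obtain ⟨y, hy, hy1⟩ := horb n
      obtain ⟨z, hz, hz1⟩ := hs (n + 1) y hy1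
      change g (orbit f (some x) (n + 1)) < g (f (n + 1) (orbit f (some x) (n + 1)))
      rw [hy, hz]
      exact hz1
  intro m n hmn
  exact hmono.injective (congrArg g hmn)

section nf

variable {K L : Type} [Field K] [NumberField K] [Field L] [Algebra K L]

/-- the map `(F + b G H) / (b G)` on `P¹(L)` -/
noncomputable def pert (L : Type) [Field L] [Algebra K L] (F G H : (𝓞 K)[X]) (b : 𝓞 K) :
    Option L → Option L
  | none => none
  | some x => open Classical in
      if (G.map (algebraMap (𝓞 K) L)).eval x = 0 then none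
      else some (((F.map (algebraMap (𝓞 K) L)).eval x + algebraMap (𝓞 K) L b *
        (G.map (algebraMap (𝓞 K) L)).eval x * (H.map (algebraMap (𝓞 K) L)).eval x) /
          (algebraMap (𝓞 K) L b * (G.map (algebraMap (𝓞 K) L)).eval x))

theorem pert_orbit [NumberField L] (v : HeightOneSpectrum (𝓞 K)) (b : 𝓞 K) (hb : b ∈ v.asIdeal)
    (hb0 : b ≠ 0) (F : (𝓞 K)[X]) (hlc : F.leadingCoeff ∉ v.asIdeal)
    (hirr : Irreducible (F.map (Ideal.Quotient.mk v.asIdeal))) (G H : ℕ → (𝓞 K)[X])
    (hG : ∀ k, (G k).leadingCoeff ∉ v.asIdeal) (hGF : ∀ k, (G k).natDegree < F.natDegree)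
    (hHF : ∀ k, (G k).natDegree + (H k).natDegree ≤ F.natDegree)
    (hL : ¬ F.natDegree ∣ Module.finrank K L) (x : L)
    (hx : ((G 0).map (algebraMap (𝓞 K) L)).eval x ≠ 0) :
    Function.Injective (orbit (fun k => pert L F (G k) (H k) b) (some x)) := by
  classical
  have hinj : Function.Injective (algebraMap (𝓞 K) L) :=
    FaithfulSMul.algebraMap_injective (𝓞 K) L
  obtain ⟨q, hq⟩ := exists_place v F.natDegree hL
  have hlF : (ovr v q).valuation L (F.map (algebraMap (𝓞 K) L)).leadingCoeff = 1 := by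
    rw [leadingCoeff_map_of_injective hinj]
    exact val_eq_one v q _ hlc
  have hlG : ∀ k, (ovr v q).valuation L ((G k).map (algebraMap (𝓞 K) L)).leadingCoeff = 1 := by
    intro k
    rw [leadingCoeff_map_of_injective hinj]
    exact val_eq_one v q _ (hG k)
  have hdeg : ∀ P : (𝓞 K)[X], (P.map (algebraMap (𝓞 K) L)).natDegree = P.natDegree := fun P =>
    natDegree_map_eq_of_injective hinj P
  have hbL : algebraMap (𝓞 K) L b ≠ 0 := by rwa [Ne, map_eq_zero_iff _ hinj]
  have hGF' : ∀ k, ((G k).map (algebraMap (𝓞 K) L)).natDegree <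
      (F.map (algebraMap (𝓞 K) L)).natDegree := by
    intro k
    rw [hdeg, hdeg]
    exact hGF k
  have hHF' : ∀ k, ((G k).map (algebraMap (𝓞 K) L)).natDegree +
      ((H k).map (algebraMap (𝓞 K) L)).natDegree ≤ (F.map (algebraMap (𝓞 K) L)).natDegree := by
    intro k
    rw [hdeg, hdeg, hdeg]
    exact hHF k
  refine orbit_injective ((ovr v q).valuation L) _ x ?_ ?_
  · have h1 := first ((ovr v q).valuation L) (coeff_le v q F) hlF (coeff_le v q (G 0)) (hlG 0)
      (hGF' 0) (coeff_le v q (H 0)) (hHF' 0) (val_lt_one v q b hb) hbL x ?_ hx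
    · exact ⟨_, if_neg hx, h1.1, h1.2⟩
    · by_contra h
      rw [not_or, not_lt, not_le] at h
      exact hq (dvd_inertia v (ovr v q) F hlc hirr x h.1 h.2)
  · intro k y hy
    have h1 := step ((ovr v q).valuation L) (coeff_le v q F) hlF (coeff_le v q (G k)) (hlG k)
      (hGF' k) (coeff_le v q (H k)) (hHF' k) (val_lt_one v q b hb) hbL y hy
    exact ⟨_, if_neg h1.1, h1.2⟩

end nf

end Pool.Agent.N680.RM
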